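import Pool.Agent.V7H47.LB.Spec

/-! Pieces CR and WID of project LB. -/

set_option autoImplicit false

open Real Set MeasureTheory

namespace Pool.Agent.V7H66.LB

open Pool.Agent.V7H47.LB Pool.Agent.V7H47.TC

theorem t_CR : S_CR := by
  intro r γ h1 h2 h3 h4 h5
  have hc : 0 < cos γ := cos_pos_of_mem_Ioo ⟨by linarith [pi_pos], h4⟩
  have hs : 0 < sin γ := sin_pos_of_pos_of_lt_pi h3 (by linarith [pi_pos])
  have h6 : sin γ ^ 2 + cos γ ^ 2 = 1 := sin_sq_add_cos_sq γ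
  rw [sin_two_mul, tan_eq_sin_div_cos]
  generalize cos γ = c at *
  generalize sin γ = s at *
  have hk : 0.074 * (s * c + 1) ≤ r * s ^ 2 := by
    have hsc : s * c ≤ (s ^ 2 + 1.118 ^ 2 * c ^ 2) / 2.236 := by
      rw [le_div_iff₀ (by norm_num)]
      nlinarith [sq_nonneg (s - 1.118 * c)]
    have hr : 0 < 1 / 2 - r := by linarith
    have hsq : ((1 / 2 - r) * c) ^ 2 ≤ r ^ 2 := pow_le_pow_left₀ (by positivity) h5 2
    have key : 0 ≤ (r - 0.074 - 0.074 / 2.236) * s ^ 2 - (0.074 + 0.074 * 1.118 ^ 2 / 2.236) * c ^ 2 := by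
      have e : s ^ 2 = 1 - c ^ 2 := by linarith
      rw [e]
      have hAB : 0 ≤ (r - 0.074 - 0.074 / 2.236) + (0.074 + 0.074 * 1.118 ^ 2 / 2.236) := by
        norm_num; linarith
      have h7 := mul_le_mul_of_nonneg_left hsq hAB
      have h8 : 0 ≤ (r - 0.074 - 0.074 / 2.236) * (1 / 4 - r) -
          (0.074 + 0.074 * 1.118 ^ 2 / 2.236) * r ^ 2 := by
        nlinarith [mul_nonneg (sub_nonneg.2 h1) (sub_nonneg.2 h2)]
      have hq : 0 ≤ ((r - 0.074 - 0.074 / 2.236) * (1 - c ^ 2) -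
          (0.074 + 0.074 * 1.118 ^ 2 / 2.236) * c ^ 2) * (1 / 2 - r) ^ 2 := by
        nlinarith
      exact nonneg_of_mul_nonneg_left hq (by positivity)
    have e3 : r * s ^ 2 - 0.074 * (s * c + 1) =
        ((r - 0.074 - 0.074 / 2.236) * s ^ 2 - (0.074 + 0.074 * 1.118 ^ 2 / 2.236) * c ^ 2) +
          0.074 * ((s ^ 2 + 1.118 ^ 2 * c ^ 2) / 2.236 - s * c) := by
      linear_combination 0.074 * h6
    have e4 : 0 ≤ 0.074 * ((s ^ 2 + 1.118 ^ 2 * c ^ 2) / 2.236 - s * c) :=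
      mul_nonneg (by norm_num) (sub_nonneg.2 hsc)
    linarith
  have e1 : 0.037 * (1 + 2 / (2 * s * c)) = 0.074 * (s * c + 1) / (2 * s * c) := by
    field_simp
    ring
  have e2 : r * (s / c) / 2 = r * s ^ 2 / (2 * s * c) := by
    field_simp
  rw [e1, e2]
  exact div_le_div_of_nonneg_right hk (by positivity)

theorem t_WID (hTRI : S_TRI) : S_WID := by
  intro K hK t
  have hd : dist (0 : Plane) (pol (1 / 2) t) = 1 / 2 := by
    have h1 := dist_sq (0 : Plane) (pol (1 / 2) t)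
    have h2 : ((0 : Plane) 0 - (pol (1 / 2) t) 0) ^ 2 + ((0 : Plane) 1 - (pol (1 / 2) t) 1) ^ 2 =
        (1 / 2) ^ 2 := by
      have h3 := sin_sq_add_cos_sq t
      simp only [pol]
      simp
      linear_combination (1 / 4) * h3
    rw [h2] at h1
    exact (pow_left_inj₀ dist_nonneg (by norm_num) two_ne_zero).1 h1
  obtain ⟨v, h1, h2, -⟩ := hTRI K hK 0 (pol (1 / 2) t) 0 (by
    rw [dist_self, dist_comm (pol (1 / 2) t) 0, hd]; norm_num)
  refine ⟨_, h2, _, h1, ?_⟩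
  have h3 := sin_sq_add_cos_sq t
  have e : D t (pol (1 / 2) t + v) - D t (0 + v) = 1 / 2 := by
    simp only [D, pol]
    simp
    linear_combination (1 / 2) * h3
  rw [e]

end Pool.Agent.V7H66.LB
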